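import Pool.Agent.MP_8be872_ag.H63.SpecD
import Pool.Agent.MP_8be872_ag.H38.GSym

/-! The flags at the origin sum to one. -/

namespace Pool.Agent.MP_8be872_ag.H93

open Finset H38 H56 H63 H38.GSym

lemma shuf {F : Type} [Field F] {n : ℕ} (z : Fin n → F) (hz : ∀ a, z a ≠ 0)
    (hinj : Function.Injective z) (d : Fin n → ℕ) :
    ∑ τ : Equiv.Perm (Fin n), ∏ a, ∏ b,
      ((if d (τ b) = d (τ a) ∧ b < a then 1 - z (τ b) / z (τ a) else 1) *
        if a < b ∧ d (τ a) ≠ d (τ b) then (1 - z (τ b) / z (τ a))⁻¹ else 1) =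
    ∏ a, ∏ b, if a ≠ b ∧ d b = d a then 1 - z b / z a else 1 := by
  classical
  have ne : ∀ a b, a ≠ b → 1 - z b / z a ≠ 0 := fun a b h =>
    sub_ne_zero.2 fun e => h (hinj (by rw [eq_div_iff (hz a), one_mul] at e; exact e))
  have hE : (∏ a, ∏ b, if d b ≠ d a then 1 - z b / z a else 1) ≠ 0 := by
    refine prod_ne_zero_iff.2 fun a _ => prod_ne_zero_iff.2 fun b _ => ?_
    split_ifs with h
    · exact ne a b fun e => h (by rw [e])
    · exact one_ne_zero
  refine mul_right_cancel₀ hE ?_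
  have hw := weyl z hz hinj fun _ => 0
  simp only [le_refl, implies_true, if_true, and_true] at hw
  rw [sum_mul]
  refine Eq.trans (sum_congr rfl fun τ _ => ?_) (hw.trans ?_)
  · rw [← τ.prod_comp univ (fun a => ∏ b, if d b ≠ d a then 1 - z b / z a else 1) (by simp),
      ← prod_mul_distrib]
    refine prod_congr rfl fun a _ => ?_
    rw [← τ.prod_comp univ (fun b => if d b ≠ d (τ a) then 1 - z b / z (τ a) else 1) (by simp),
      ← prod_mul_distrib]
    refine prod_congr rfl fun b _ => ?_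
    rcases lt_trichotomy a b with h | h | h
    · by_cases e : d (τ b) = d (τ a)
      · simp [e, h.not_gt]
      · rw [if_neg fun c => e c.1, if_pos ⟨h, fun c => e c.symm⟩, if_pos e, if_neg h.not_gt,
          one_mul, inv_mul_cancel₀ (ne _ _ fun c => h.ne (τ.injective c))]
    · simp [h]
    · by_cases e : d (τ b) = d (τ a) <;> simp [e, h, h.not_gt]
  · rw [← prod_mul_distrib]
    refine prod_congr rfl fun a _ => ?_
    rw [← prod_mul_distrib]
    refine prod_congr rfl fun b _ => ?_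
    by_cases e : d b = d a
    · simp [e]
    · have : a ≠ b := fun c => e (by rw [c])
      simp [e, this]

/-- The Weyl factor of one vertex in the order `τ`. -/
noncomputable def tm {n : ℕ} (x : Fin n → G) (d : Fin n → ℕ) (τ : Equiv.Perm (Fin n)) : K :=
  (∏ a, ∏ b, if d (τ b) < d (τ a) ∨ (d (τ b) = d (τ a) ∧ b < a) then
      1 - mon (x (τ b) - x (τ a)) else 1) *
    ∏ a, ∏ b, if a < b ∧ d (τ a) ≠ d (τ b) then
      (1 - mon (x (τ b) + (d (τ b) : ℤ) • qq - (x (τ a) + (d (τ a) : ℤ) • qq)))⁻¹ else 1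

lemma tm_sum {n : ℕ} (x : Fin n → G) (d : Fin n → ℕ)
    (h : Function.Injective fun a => x a + (d a : ℤ) • qq) :
    ∑ τ, tm x d τ = ∏ a, ∏ b, if a ≠ b ∧ d b ≤ d a then 1 - mon (x b - x a) else 1 := by
  have hs := shuf (fun a => mon (x a + (d a : ℤ) • qq)) (fun a => mon_ne _)
    (fun a b e => h (mon_inj e)) d
  simp only [← mon_sub] at hs
  have e1 : ∀ τ : Equiv.Perm (Fin n), tm x d τ =
      (∏ a, ∏ b, if d b < d a then 1 - mon (x b - x a) else 1) * ∏ a, ∏ b,
      ((if d (τ b) = d (τ a) ∧ b < a then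
        1 - mon (x (τ b) + (d (τ b) : ℤ) • qq - (x (τ a) + (d (τ a) : ℤ) • qq)) else 1) *
        if a < b ∧ d (τ a) ≠ d (τ b) then
          (1 - mon (x (τ b) + (d (τ b) : ℤ) • qq - (x (τ a) + (d (τ a) : ℤ) • qq)))⁻¹ else 1) := by
    intro τ
    rw [← τ.prod_comp univ (fun a => ∏ b, if d b < d a then 1 - mon (x b - x a) else 1) (by simp),
      tm, ← prod_mul_distrib, ← prod_mul_distrib]
    refine prod_congr rfl fun a _ => ?_
    rw [← τ.prod_comp univ (fun b => if d b < d (τ a) then 1 - mon (x b - x (τ a)) else 1)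
      (by simp), ← prod_mul_distrib, ← prod_mul_distrib]
    refine prod_congr rfl fun b _ => ?_
    rw [← mul_assoc]
    congr 1
    by_cases e : d (τ b) = d (τ a)
    · simp [e]
    · simp [e]
  rw [sum_congr rfl fun τ _ => e1 τ, ← mul_sum, hs, ← prod_mul_distrib]
  refine prod_congr rfl fun a _ => ?_
  rw [← prod_mul_distrib]
  refine prod_congr rfl fun b _ => ?_
  rcases lt_trichotomy (d b) (d a) with e | e | e
  · have : a ≠ b := fun c => e.ne (by rw [c])
    simp [e, e.ne, e.le, this]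
  · simp [e]
  · simp [e.not_gt, e.ne', e.not_ge]

variable {Q : Quiv} {w v : Fin Q.n → ℕ}

lemma RR_congr (θ : Fin Q.n → ℤ) (x : Fin Q.n → ℕ → G) {d d' : Fin Q.n → ℕ → ℤ}
    (h : ∀ i, ∀ a ∈ range (v i), d i a = d' i a) : RR Q w v θ x d = RR Q w v θ x d' := by
  refine congrArg₂ (· * ·) rfl (congrArg₂ (· * ·) (congrArg₂ (· * ·) ?_ ?_) ?_)
  · exact prod_congr rfl fun e _ => prod_congr rfl fun a ha => prod_congr rfl fun b hb => by
      rw [h _ a ha, h _ b hb]
  · exact prod_congr rfl fun i _ => prod_congr rfl fun k _ => prod_congr rfl fun a ha => by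
      rw [h _ a ha]
  · exact prod_congr rfl fun i _ => prod_congr rfl fun a ha => prod_congr rfl fun b hb => by
      rw [h _ a ha, h _ b hb]

lemma exists_perm {σ : Bas Q v ≃ Bas Q v} (h : ∀ a, (σ a).1 = a.1) :
    ∃ s : ∀ i, Equiv.Perm (Fin (v i)), ∀ i a, σ ⟨i, a⟩ = ⟨i, s i a⟩ := by
  have key : ∀ i a, ∃ c, σ ⟨i, a⟩ = ⟨i, c⟩ := fun i a => by
    have := h ⟨i, a⟩
    generalize σ ⟨i, a⟩ = p at this
    obtain ⟨j, c⟩ := p
    obtain rfl : j = i := this
    exact ⟨c, rfl⟩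
  choose f hf using key
  have hinj : ∀ i, Function.Injective (f i) := fun i a b e => by
    have : σ ⟨i, a⟩ = σ ⟨i, b⟩ := by rw [hf, hf, e]
    exact eq_of_heq (Sigma.mk.inj (σ.injective this)).2
  exact ⟨fun i => Equiv.ofBijective (f i) (Finite.injective_iff_bijective.1 (hinj i)), hf⟩

/-- Extension by zero. -/
def dx (d : Bas Q v → ℕ) (i : Fin Q.n) (a : ℕ) : ℕ := if h : a < v i then d ⟨i, ⟨a, h⟩⟩ else 0

lemma dx_val (d : Bas Q v → ℕ) (i : Fin Q.n) (a : Fin (v i)) : dx d i a = d ⟨i, a⟩ := dif_pos a.2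

/-- Permuting a composition. -/
def ac (τ : ∀ i, Equiv.Perm (Fin (v i))) (d : Bas Q v → ℕ) (a : Bas Q v) : ℕ :=
  d ⟨a.1, (τ a.1)⁻¹ a.2⟩

lemma ac_mem {D : Fin Q.n →₀ ℕ} (τ : ∀ i, Equiv.Perm (Fin (v i))) {d : Bas Q v → ℕ}
    (hd : d ∈ comps Q v D) : ac τ d ∈ comps Q v D := by
  simp only [comps, mem_filter, Fintype.mem_piFinset] at hd ⊢
  exact ⟨fun a => hd.1 _, fun i => ((τ i)⁻¹.sum_comp univ (fun a => d ⟨i, a⟩) (by simp)).trans
    (hd.2 i)⟩

lemma flag_eq {σ : Bas Q v ≃ Bas Q v} {s : ∀ i, Equiv.Perm (Fin (v i))}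
    (hs : ∀ i a, σ ⟨i, a⟩ = ⟨i, s i a⟩) (d : Bas Q v → ℕ) :
    flagK σ d = ∏ i, ∏ a, ∏ b, if a < b ∧ d ⟨i, a⟩ ≠ d ⟨i, b⟩ then
      (1 - mon (xV i (s i b) + (d ⟨i, b⟩ : ℤ) • qq - (xV i (s i a) + (d ⟨i, a⟩ : ℤ) • qq)))⁻¹
      else 1 := by
  rw [flagK, Fintype.prod_sigma]
  refine prod_congr rfl fun i _ => prod_congr rfl fun a _ => ?_
  rw [Fintype.prod_sigma, prod_eq_single i (fun j _ h => prod_eq_one fun b _ =>
    if_neg fun c => h c.1.symm) (by simp)]
  refine prod_congr rfl fun b _ => ?_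
  rw [hs, hs]
  simp only [true_and, Fin.val_fin_lt]

/-- The symmetrized summand. -/
noncomputable def TT (w : Fin Q.n → ℕ) (θ : Fin Q.n → ℤ) (d : Bas Q v → ℕ)
    (τ : ∀ i, Equiv.Perm (Fin (v i))) : K :=
  RR Q w v θ (fun i a => xV i a) (fun i a => dx d i a) *
    ∏ i, tm (fun a : Fin (v i) => xV i a) (fun a => d ⟨i, a⟩) (τ i)

lemma sym_term (θ : Fin Q.n → ℤ) {D : Fin Q.n →₀ ℕ} {d : Bas Q v → ℕ} {σ : Bas Q v ≃ Bas Q v}
    {e : Fin Q.n → ℕ → ℕ} (h : IsSort D d σ e) {s : ∀ i, Equiv.Perm (Fin (v i))}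
    (hs : ∀ i a, σ ⟨i, a⟩ = ⟨i, s i a⟩) (π : ∀ i, Equiv.Perm (Fin (v i))) :
    ct (RR Q w v θ (fun i a => xV i a) (fun i a => e i a) * BB Q v (fun i a => xV i a) *
      flagK σ d) = ct (TT w θ (ac (π * s) d) (π * s)) := by
  have hσ := sg_adm Q v π
  have x0 : ∀ i a, co 0 (xV i a) = 0 := fun i a => by simp [xV, co_gen]
  have hx : ∀ (i : Fin Q.n) (a : Fin (v i)), GSym.sg Q v π (xV i a) = xV i (π i a) := fun i a => by
    rw [sg_xV Q v π i (mem_range.2 a.2), ex_val]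
  have hf : Sym (GSym.sg Q v π) (flagK σ d) (∏ i, ∏ a, ∏ b, if a < b ∧ d ⟨i, a⟩ ≠ d ⟨i, b⟩ then
      (1 - mon (xV i (π i (s i b)) + (d ⟨i, b⟩ : ℤ) • qq -
        (xV i (π i (s i a)) + (d ⟨i, a⟩ : ℤ) • qq)))⁻¹ else 1) := by
    rw [flag_eq hs]
    refine Sym.prod _ fun i _ => Sym.prod _ fun a _ => Sym.prod _ fun b _ => ?_
    split_ifs with c
    · have := Sym.geo hσ (u := xV i (s i b) + (d ⟨i, b⟩ : ℤ) • qq -
        (xV i (s i a) + (d ⟨i, a⟩ : ℤ) • qq)) (Or.inl (by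
          have := c.2
          simp only [map_sub, map_add, map_zsmul, x0, c0q, smul_eq_mul]
          omega))
      simpa only [map_sub, map_add, map_zsmul, hσ.q, hx] using this
    · exact Sym.one
  rw [((sym_RB Q w v θ π _).mul hf).ct_eq (sg_fix Q v π), TT, mul_assoc]
  congr 2
  · rw [← RR_perm Q w v θ π (fun i a => xV i a) fun i a => dx (ac (π * s) d) i a]
    refine RR_congr θ _ fun i a ha => ?_
    lift a to Fin (v i) using mem_range.1 ha
    obtain ⟨a, rfl⟩ := (s i).surjective a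
    have := h.val ⟨i, a⟩
    rw [hs] at this
    rw [ex_val, dx_val]
    simp only [ac, Pi.mul_apply, ← Equiv.Perm.mul_apply, inv_mul_cancel]
    exact congrArg _ this
  · rw [BB, ← prod_mul_distrib]
    refine prod_congr rfl fun i _ => ?_
    have hac : ∀ a, ac (π * s) d ⟨i, (π * s) i a⟩ = d ⟨i, a⟩ := fun a => by simp [ac]
    simp only [tm, hac]
    congr 1
    rw [prod_range2, ← (s i).prod_comp univ _ (by simp)]
    refine prod_congr rfl fun a _ => ?_
    rw [← (s i).prod_comp univ _ (by simp)]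
    refine prod_congr rfl fun b _ => ?_
    have := h.ord ⟨i, a⟩ ⟨i, b⟩ rfl
    rw [hs, hs] at this
    rw [ex_val, ex_val]
    exact if_congr this rfl rfl

lemma TT_sum (θ : Fin Q.n → ℤ) (d : Bas Q v → ℕ) :
    ∑ τ, TT w θ d τ = mon (∑ i : Fin Q.n, ∑ a ∈ range (v i), θ i • xV i a) *
      integrand Q w v fun i a => dx d i a := by
  rw [GSym.integrand_eq, GSym.WW]
  simp only [TT, ← mul_sum]
  congr 1
  rw [← Fintype.prod_sum fun (i : Fin Q.n) (τ : Equiv.Perm (Fin (v i))) =>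
    tm (fun a : Fin (v i) => xV i a) (fun a => d ⟨i, a⟩) τ]
  refine prod_congr rfl fun i _ => ?_
  rw [tm_sum, prod_range2]
  · simp only [dx_val, Nat.cast_le, ne_eq, Fin.val_inj]
  · intro a b h
    have h1 := congrArg (co (ix i a)) h
    have h2 : co (ix i a) qq = 0 := by simp [qq, co_gen, ix]
    simp only [map_add, map_zsmul, h2, co_ix_xV, smul_zero, add_zero, true_and, if_true] at h1
    by_contra hne
    rw [if_neg fun c => hne (Fin.ext c).symm] at h1
    exact one_ne_zero h1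

lemma sum_dx (D : Fin Q.n →₀ ℕ) (f : (Fin Q.n → ℕ → ℕ) → K) :
    ∑ d ∈ comps Q v D, f (dx d) =
      ∑ d ∈ Fintype.piFinset (fun i => piAntidiag (range (v i)) (D i)), f d := by
  refine sum_nbij' dx (fun d a => d a.1 a.2) (fun d hd => ?_) (fun d hd => ?_) (fun d _ => ?_)
    (fun d hd => ?_) fun _ _ => rfl
  · simp only [comps, mem_filter, Fintype.mem_piFinset] at hd ⊢
    intro i
    refine mem_piAntidiag.2 ⟨?_, fun a ha => ?_⟩
    · rw [← Fin.sum_univ_eq_sum_range (dx d i), ← hd.2 i]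
      exact sum_congr rfl fun a _ => dx_val d i a
    · by_contra hn
      exact ha (dif_neg fun c => hn (mem_range.2 c))
  · simp only [comps, mem_filter, Fintype.mem_piFinset] at hd ⊢
    have h1 : ∀ i, ∑ a : Fin (v i), d i a = D i := fun i =>
      (Fin.sum_univ_eq_sum_range (d i) _).trans (mem_piAntidiag.1 (hd i)).1
    refine ⟨fun a => mem_range.2 (Nat.lt_succ_of_le ?_), h1⟩
    exact (single_le_sum (f := fun c : Fin (v a.1) => d a.1 c) (fun _ _ => Nat.zero_le _)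
      (mem_univ a.2)).trans ((h1 a.1).le.trans
        (single_le_sum (f := fun i => D i) (fun _ _ => Nat.zero_le _) (mem_univ a.1)))
  · funext a
    exact dx_val d a.1 a.2
  · funext i a
    rw [dx]
    split_ifs with c
    · rfl
    · by_contra hn
      exact c (mem_range.1 ((mem_piAntidiag.1 (Fintype.mem_piFinset.1 hd i)).2 a (Ne.symm hn)))

theorem symF : SymFStmt := by
  classical
  intro Q w v D σ e h k
  have hN : (∏ i, (v i).factorial) = Fintype.card (∀ i, Equiv.Perm (Fin (v i))) := by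
    simp [Fintype.card_pi, Fintype.card_perm]
  have hk : k • allX Q v = ∑ i : Fin Q.n, ∑ a ∈ range (v i), (k : ℤ) • xV i a := by
    simp only [allX, sum_nsmul, natCast_zsmul]
  have e1 : ∀ d ∈ comps Q v D, (∏ i, (v i).factorial) • res Sall (mon (k • allX Q v) *
      (moving Q w v (fun i a => e d i a) * flagK (σ d) d * fixB Q w v fun i a => e d i a)) =
      ∑ τ, ct (TT w (fun _ => (k : ℤ)) (ac τ d) τ) := by
    intro d hd
    obtain ⟨s, hs⟩ := exists_perm (h d hd).vert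
    rw [← (Equiv.mulRight s).sum_comp univ _ (by simp), mul_right_comm, ← mul_assoc, hk,
      borel_eq Q w v fun _ => (k : ℤ), ← ct_eq, hN, ← card_univ, ← sum_const]
    exact sum_congr rfl fun π _ => sym_term _ (h d hd) hs π
  have e2 : ∀ τ : ∀ i, Equiv.Perm (Fin (v i)),
      ∑ d ∈ comps Q v D, ct (TT w (fun _ => (k : ℤ)) (ac τ d) τ) =
        ∑ d ∈ comps Q v D, ct (TT w (fun _ => (k : ℤ)) d τ) := fun τ =>
    sum_nbij' (ac τ) (ac τ⁻¹) (fun d => ac_mem τ) (fun d => ac_mem τ⁻¹)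
      (fun d _ => funext fun a => by simp [ac]) (fun d _ => funext fun a => by simp [ac])
      fun _ _ => rfl
  have hne : (∏ i, (v i).factorial) ≠ 0 := prod_ne_zero_iff.2 fun i _ => Nat.factorial_ne_zero _
  refine nsmul_right_injective hne ?_
  beta_reduce
  rw [← num_sym sym, smul_sum, sum_congr rfl e1, sum_comm, sum_congr rfl fun τ _ => e2 τ, sum_comm,
    num, mul_sum, ct_sum, ← sum_dx]
  refine sum_congr rfl fun d _ => ?_
  rw [← ct_sum, TT_sum]
  simp only [natCast_zsmul]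

end Pool.Agent.MP_8be872_ag.H93
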